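import Mathlib

/-!
# Tube doubling: general tools
-/

set_option autoImplicit false

namespace Pool.Agent.helper88.Tube

open MeasureTheory Set Metric

section general

variable {V : Type*} [NormedAddCommGroup V] [NormedSpace ℝ V]

/-- the open `r`-neighbourhood of the segment with midpoint `c`, direction `v` and half-length
`h` -/
def tube (h r : ℝ) (c v : V) : Set V := {x | ∃ t ∈ Icc (-h) h, dist x (c + t • v) < r}

theorem tube_eq_thickening (h r : ℝ) (c v : V) :
    tube h r c v = thickening r ((fun t : ℝ => c + t • v) '' Icc (-h) h) := by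
  ext x
  rw [mem_thickening_iff]
  constructor
  · rintro ⟨t, ht, hd⟩
    exact ⟨_, ⟨t, ht, rfl⟩, hd⟩
  · rintro ⟨_, ⟨t, ht, rfl⟩, hd⟩
    exact ⟨t, ht, hd⟩

theorem isOpen_tube (h r : ℝ) (c v : V) : IsOpen (tube h r c v) := by
  rw [tube_eq_thickening]
  exact isOpen_thickening

/-- the union of the tubes of a family -/
def U (h r : ℝ) (S : Set (V × V)) : Set V := ⋃ p ∈ S, tube h r p.1 p.2

theorem mem_U {h r : ℝ} {S : Set (V × V)} {x : V} :
    x ∈ U h r S ↔ ∃ p ∈ S, ∃ t ∈ Icc (-h) h, dist x (p.1 + t • p.2) < r := by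
  simp [U, tube]

theorem isOpen_U (h r : ℝ) (S : Set (V × V)) : IsOpen (U h r S) :=
  isOpen_biUnion fun _ _ => isOpen_tube _ _ _ _

theorem U_eq_thickening (h r : ℝ) (S : Set (V × V)) :
    U h r S = thickening r {y | ∃ p ∈ S, ∃ t ∈ Icc (-h) h, y = p.1 + t • p.2} := by
  ext x
  rw [mem_thickening_iff, mem_U]
  constructor
  · rintro ⟨p, hp, t, ht, hd⟩
    exact ⟨_, ⟨p, hp, t, ht, rfl⟩, hd⟩
  · rintro ⟨_, ⟨p, hp, t, ht, rfl⟩, hd⟩
    exact ⟨p, hp, t, ht, hd⟩

theorem U_mono_set {h r : ℝ} {S S' : Set (V × V)} (hS : S ⊆ S') : U h r S ⊆ U h r S' := by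
  intro x hx
  rw [mem_U] at hx ⊢
  obtain ⟨p, hp, hx⟩ := hx
  exact ⟨p, hS hp, hx⟩

theorem U_mono {h h' r r' : ℝ} {S : Set (V × V)} (hh : h ≤ h') (hr : r ≤ r') :
    U h r S ⊆ U h' r' S := by
  intro x hx
  rw [mem_U] at hx ⊢
  obtain ⟨p, hp, t, ht, hd⟩ := hx
  exact ⟨p, hp, t, ⟨by linarith [ht.1], by linarith [ht.2]⟩, hd.trans_le hr⟩

/-- enlarging the radius of a neighbourhood by a bounded factor costs a bounded factor -/
theorem thickening_le [FiniteDimensional ℝ V] [MeasurableSpace V] [BorelSpace V]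
    (μ : Measure V) [μ.IsAddHaarMeasure] (L : ℝ) :
    ∃ K : ℕ, ∀ r R : ℝ, 0 < r → R ≤ L * r → ∀ X : Set V,
      μ (thickening R X) ≤ K * μ (thickening r X) := by
  obtain ⟨t, -, htf, ht⟩ := (isCompact_closedBall (0 : V) L).finite_cover_balls (e := 1) one_pos
  refine ⟨htf.toFinset.card, ?_⟩
  intro r R hr hR X
  have hsub : thickening R X ⊆ ⋃ z ∈ htf.toFinset, (fun x => r • z + x) '' thickening r X := by
    intro x hx
    rw [mem_thickening_iff] at hx
    obtain ⟨y, hy, hd⟩ := hx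
    have h1 : r⁻¹ • (x - y) ∈ closedBall (0 : V) L := by
      rw [mem_closedBall_zero_iff, norm_smul, norm_inv, Real.norm_of_nonneg hr.le, ← dist_eq_norm,
        inv_mul_le_iff₀ hr]
      linarith
    obtain ⟨z, hz, hzd⟩ := mem_iUnion₂.1 (ht h1)
    refine mem_iUnion₂.2 ⟨z, htf.mem_toFinset.2 hz, x - r • z, ?_, by simp⟩
    rw [mem_thickening_iff]
    refine ⟨y, hy, ?_⟩
    rw [mem_ball, dist_eq_norm] at hzd
    have h2 : x - r • z - y = r • (r⁻¹ • (x - y) - z) := by
      rw [smul_sub, smul_inv_smul₀ hr.ne']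
      abel
    rw [dist_eq_norm, h2, norm_smul, Real.norm_of_nonneg hr.le]
    nlinarith
  calc μ (thickening R X) ≤ μ (⋃ z ∈ htf.toFinset, (fun x => r • z + x) '' thickening r X) :=
        measure_mono hsub
    _ ≤ ∑ z ∈ htf.toFinset, μ ((fun x => r • z + x) '' thickening r X) :=
        measure_biUnion_finset_le _ _
    _ = ∑ z ∈ htf.toFinset, μ (thickening r X) := by
        refine Finset.sum_congr rfl fun z _ => ?_
        rw [image_add_left, measure_preimage_add]
    _ = htf.toFinset.card * μ (thickening r X) := by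
        rw [Finset.sum_const, nsmul_eq_mul]

/-- from finite to arbitrary families -/
theorem of_finite [MeasurableSpace V] [BorelSpace V] (μ : Measure V)
    [μ.Regular] {h h' r r' : ℝ} {R : ENNReal}
    (hfin : ∀ S : Finset (V × V), (∀ p ∈ S, ‖p.2‖ = 1) →
      μ (U h' r' (S : Set (V × V))) ≤ R * μ (U h r (S : Set (V × V))))
    (S : Set (V × V)) (hS : ∀ p ∈ S, ‖p.2‖ = 1) :
    μ (U h' r' S) ≤ R * μ (U h r S) := by
  classical
  rw [(isOpen_U h' r' S).measure_eq_iSup_isCompact]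
  refine iSup₂_le fun K hK => iSup_le fun hKc => ?_
  have hcov : K ⊆ ⋃ p : S, tube h' r' p.1.1 p.1.2 := by
    intro x hx
    obtain ⟨p, hp, hxp⟩ := mem_iUnion₂.1 (hK hx)
    exact mem_iUnion.2 ⟨⟨p, hp⟩, hxp⟩
  obtain ⟨t, ht⟩ := hKc.elim_finite_subcover (fun p : S => tube h' r' p.1.1 p.1.2)
    (fun p => isOpen_tube _ _ _ _) hcov
  let S0 : Finset (V × V) := t.image Subtype.val
  have hS0 : (S0 : Set (V × V)) ⊆ S := by
    intro p hp
    simp only [S0, Finset.coe_image, mem_image] at hp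
    obtain ⟨q, _, rfl⟩ := hp
    exact q.2
  calc μ K ≤ μ (U h' r' (S0 : Set (V × V))) := by
        refine measure_mono fun x hx => ?_
        obtain ⟨p, hp, hxp⟩ := mem_iUnion₂.1 (ht hx)
        refine mem_iUnion₂.2 ⟨p.1, ?_, hxp⟩
        simp only [S0, Finset.coe_image, mem_image]
        exact ⟨p, hp, rfl⟩
    _ ≤ R * μ (U h r (S0 : Set (V × V))) := hfin S0 fun p hp => hS p (hS0 hp)
    _ ≤ R * μ (U h r S) := by
        gcongr
        exact U_mono_set hS0

/-- a linear equivalence maps one Haar measure to a multiple of the other -/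
theorem exists_const {W P : Type*} [NormedAddCommGroup W] [NormedSpace ℝ W]
    [FiniteDimensional ℝ W] [MeasurableSpace W] [BorelSpace W] (μ : Measure W)
    [μ.IsAddHaarMeasure] [NormedAddCommGroup P] [NormedSpace ℝ P] [FiniteDimensional ℝ P]
    [MeasurableSpace P] [BorelSpace P] (ν : Measure P) [ν.IsAddHaarMeasure] (L : W ≃L[ℝ] P) :
    ∃ c : ENNReal, c ≠ 0 ∧ c ≠ ⊤ ∧ ∀ s : Set P, IsOpen s → μ (L ⁻¹' s) = c * ν s := by
  have h1 : (μ.map L).IsAddHaarMeasure := L.isAddHaarMeasure_map μ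
  refine ⟨(Measure.addHaarScalarFactor (μ.map L) ν : ENNReal), ?_, ENNReal.coe_ne_top,
    fun s hs => ?_⟩
  · exact_mod_cast (Measure.addHaarScalarFactor_pos_of_isAddHaarMeasure (μ.map L) ν).ne'
  · rw [← Measure.map_apply L.continuous.measurable hs.measurableSet,
      Measure.measure_isAddHaarMeasure_eq_smul_of_isOpen (μ.map L) ν hs]
    rfl

end general

end Pool.Agent.helper88.Tube
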