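import Pool.Agent.helper88.Tube.Basic

/-!
# Tube doubling: products
-/

set_option autoImplicit false

namespace Pool.Agent.helper88.Tube

open MeasureTheory Set Metric

/-- Euclidean space -/
abbrev E (n : ℕ) : Type := EuclideanSpace ℝ (Fin n)

/-- `ℝ^(k n)` as the `k`-th power of `ℝ^n` -/
noncomputable def Lk (k n : ℕ) : E (k * n) ≃ₗ[ℝ] (Fin k → E n) where
  toFun x := fun j => WithLp.toLp 2 (fun i => x (finProdFinEquiv (j, i)))
  invFun y := WithLp.toLp 2 (fun m => y (finProdFinEquiv.symm m).1 (finProdFinEquiv.symm m).2)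
  map_add' x y := by
    funext j
    ext i
    simp
  map_smul' a x := by
    funext j
    ext i
    simp
  left_inv x := by
    ext m
    show x (finProdFinEquiv (finProdFinEquiv.symm m)) = x m
    rw [Equiv.apply_symm_apply]
  right_inv y := by
    funext j
    ext i
    simp

theorem Lk_norm (k n : ℕ) (x : E (k * n)) : ‖x‖ ^ 2 = ∑ j, ‖Lk k n x j‖ ^ 2 := by
  rw [EuclideanSpace.norm_sq_eq, ← finProdFinEquiv.sum_comp, Fintype.sum_prod_type]
  refine Finset.sum_congr rfl fun j _ => ?_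
  rw [EuclideanSpace.norm_sq_eq]
  rfl

theorem Lk_norm_le (k n : ℕ) (x : E (k * n)) (j : Fin k) : ‖Lk k n x j‖ ≤ ‖x‖ := by
  have h1 := Lk_norm k n x
  have h2 : ‖Lk k n x j‖ ^ 2 ≤ ∑ j, ‖Lk k n x j‖ ^ 2 :=
    Finset.single_le_sum (f := fun j => ‖Lk k n x j‖ ^ 2) (fun i _ => sq_nonneg _)
      (Finset.mem_univ j)
  rw [← h1] at h2
  exact (le_abs_self _).trans (abs_le_of_sq_le_sq h2 (norm_nonneg _))

/-- the scaled form -/
noncomputable def Ls (k n : ℕ) (l : ℝ) (hl : l ≠ 0) : E (k * n) ≃L[ℝ] (Fin k → E n) :=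
  ((Lk k n).trans (LinearEquiv.smulOfUnit (Units.mk0 l⁻¹ (inv_ne_zero hl)))).toContinuousLinearEquiv

theorem Ls_apply (k n : ℕ) (l : ℝ) (hl : l ≠ 0) (x : E (k * n)) (j : Fin k) :
    Ls k n l hl x j = l⁻¹ • Lk k n x j := rfl

theorem tensor {k n : ℕ} (hk : 1 ≤ k) {h r : ℝ} (hh : 0 < h) (hr : 0 < r) {R : ENNReal}
    (hD : ∀ S : Set (E (k * n) × E (k * n)), (∀ p ∈ S, ‖p.2‖ = 1) →
      volume (U 1 (2 * (3 / (2 * h * √k) * r)) S) ≤ R * volume (U (1 / 2) (3 / (2 * h * √k) * r) S))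
    (S : Set (E n × E n)) (hS : ∀ p ∈ S, ‖p.2‖ = 1) :
    volume (U (4 / 3 * h) (2 * r / √k) S) ^ k ≤ R * volume (U h r S) ^ k := by
  classical
  have hk0 : (0 : ℝ) < k := by exact_mod_cast hk
  have hsk : 0 < √(k : ℝ) := Real.sqrt_pos.2 hk0
  have hsk2 : √(k : ℝ) ^ 2 = k := Real.sq_sqrt hk0.le
  obtain ⟨l, hl⟩ : ∃ l : ℝ, l = 3 / (2 * h * √k) := ⟨_, rfl⟩
  have hl0 : 0 < l := by rw [hl]; positivity
  have hlk : l⁻¹ / √k = 2 / 3 * h := by
    rw [hl]
    field_simp
  rw [← hl] at hD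
  set L := Ls k n l hl0.ne' with hLdef
  obtain ⟨S', hS'⟩ : ∃ S' : Set (E (k * n) × E (k * n)), S' = {q | ∃ (p : Fin k → E n × E n)
      (a e : Fin k → ℝ), (∀ j, p j ∈ S) ∧ (∀ j, |a j| ≤ 2 / 3 * h) ∧ (∀ j, e j = 1 ∨ e j = -1) ∧
      q.1 = L.symm (fun j => (p j).1 + a j • (p j).2) ∧
      q.2 = L.symm (fun j => (2 / 3 * h * e j) • (p j).2)} := ⟨_, rfl⟩
  have hnorm : ∀ x : E (k * n), ‖x‖ ^ 2 = l ^ 2 * ∑ j, ‖L x j‖ ^ 2 := by
    intro x
    rw [Lk_norm, Finset.mul_sum]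
    refine Finset.sum_congr rfl fun j _ => ?_
    rw [hLdef, Ls_apply, norm_smul, norm_inv, Real.norm_of_nonneg hl0.le]
    field_simp
  have hnormle : ∀ (x : E (k * n)) (j : Fin k), ‖L x j‖ ≤ l⁻¹ * ‖x‖ := by
    intro x j
    rw [hLdef, Ls_apply, norm_smul, norm_inv, Real.norm_of_nonneg hl0.le]
    exact mul_le_mul_of_nonneg_left (Lk_norm_le k n x j) (inv_nonneg.2 hl0.le)
  have hunit : ∀ q ∈ S', ‖q.2‖ = 1 := by
    intro q hq
    rw [hS'] at hq
    obtain ⟨p, a, e, hp, _, he, _, hq2⟩ := hq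
    have h1 : ‖q.2‖ ^ 2 = 1 := by
      rw [hnorm, hq2, L.apply_symm_apply]
      have h2 : ∀ j : Fin k, ‖(2 / 3 * h * e j) • (p j).2‖ ^ 2 = (2 / 3 * h) ^ 2 := by
        intro j
        rw [norm_smul, hS _ (hp j), mul_one, Real.norm_eq_abs, sq_abs, mul_pow]
        rcases he j with h3 | h3 <;> rw [h3] <;> ring
      simp only [h2]
      rw [Finset.sum_const, Finset.card_univ, Fintype.card_fin, nsmul_eq_mul, hl]
      field_simp
      rw [hsk2]
    nlinarith [norm_nonneg q.2]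
  have hsub1 : U (1 / 2) (l * r) S' ⊆ L ⁻¹' (univ.pi fun _ => U h r S) := by
    intro x hx
    rw [mem_U] at hx
    obtain ⟨q, hq, t, ht, hd⟩ := hx
    rw [hS'] at hq
    obtain ⟨p, a, e, hp, ha, he, hq1, hq2⟩ := hq
    rw [mem_preimage, mem_univ_pi]
    intro j
    rw [mem_U]
    refine ⟨p j, hp j, a j + t * (2 / 3 * h * e j), ?_, ?_⟩
    · have h1 := abs_le.1 (ha j)
      have h2 := ht.1
      have h3 := ht.2
      rcases he j with h4 | h4 <;> rw [h4] <;> constructor <;> nlinarith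
    · have h1 : L (x - (q.1 + t • q.2)) j =
          L x j - ((p j).1 + (a j + t * (2 / 3 * h * e j)) • (p j).2) := by
        rw [map_sub, map_add, map_smul, hq1, hq2, L.apply_symm_apply, L.apply_symm_apply]
        simp only [Pi.sub_apply, Pi.add_apply, Pi.smul_apply]
        rw [add_smul, smul_smul]
        abel
      rw [dist_eq_norm, ← h1]
      refine (hnormle _ j).trans_lt ?_
      rw [dist_eq_norm] at hd
      calc l⁻¹ * ‖x - (q.1 + t • q.2)‖ < l⁻¹ * (l * r) :=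
            mul_lt_mul_of_pos_left hd (inv_pos.2 hl0)
        _ = r := by field_simp
  have hsub2 : L ⁻¹' (univ.pi fun _ => U (4 / 3 * h) (2 * r / √k) S) ⊆ U 1 (2 * (l * r)) S' := by
    intro x hx
    rw [mem_preimage, mem_univ_pi] at hx
    have hx' : ∀ j, ∃ p ∈ S, ∃ t ∈ Icc (-(4 / 3 * h)) (4 / 3 * h),
        dist (L x j) (p.1 + t • p.2) < 2 * r / √k := fun j => mem_U.1 (hx j)
    choose p hp s hs hd using hx'
    obtain ⟨e, he⟩ : ∃ e : Fin k → ℝ, e = fun j => if 0 ≤ s j then 1 else -1 := ⟨_, rfl⟩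
    have he1 : ∀ j, e j = 1 ∨ e j = -1 := by
      intro j
      rw [he]
      by_cases h0 : 0 ≤ s j <;> simp [h0]
    rw [mem_U]
    refine ⟨(L.symm (fun j => (p j).1 + (s j - 2 / 3 * h * e j) • (p j).2),
      L.symm (fun j => (2 / 3 * h * e j) • (p j).2)), ?_, 1, by norm_num, ?_⟩
    · rw [hS']
      refine ⟨p, fun j => s j - 2 / 3 * h * e j, e, hp, ?_, he1, rfl, rfl⟩
      intro j
      have h1 := (hs j).1
      have h2 := (hs j).2
      show |s j - 2 / 3 * h * e j| ≤ 2 / 3 * h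
      rw [abs_le]
      by_cases h0 : 0 ≤ s j
      · have h3 : e j = 1 := by rw [he]; simp [h0]
        rw [h3]
        constructor <;> linarith
      · have h3 : e j = -1 := by rw [he]; simp [h0]
        rw [h3]
        push Not at h0
        constructor <;> linarith
    · simp only [one_smul]
      rw [← map_add]
      have h1 : ((fun j => (p j).1 + (s j - 2 / 3 * h * e j) • (p j).2) +
          fun j => (2 / 3 * h * e j) • (p j).2) = fun j => (p j).1 + s j • (p j).2 := by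
        funext j
        simp only [Pi.add_apply]
        rw [sub_smul]
        abel
      rw [h1, dist_eq_norm]
      have h2 : ‖x - L.symm (fun j => (p j).1 + s j • (p j).2)‖ ^ 2 < (2 * (l * r)) ^ 2 := by
        rw [hnorm, map_sub, L.apply_symm_apply]
        have h3 : ∀ j ∈ (Finset.univ : Finset (Fin k)),
            ‖(L x - fun j => (p j).1 + s j • (p j).2) j‖ ^ 2 < (2 * r / √k) ^ 2 := by
          intro j _
          have h4 := hd j
          rw [dist_eq_norm] at h4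
          exact pow_lt_pow_left₀ h4 (norm_nonneg _) two_ne_zero
        have h5 : (Finset.univ : Finset (Fin k)).Nonempty := ⟨⟨0, hk⟩, Finset.mem_univ _⟩
        have h6 := Finset.sum_lt_sum_of_nonempty h5 h3
        rw [Finset.sum_const, Finset.card_univ, Fintype.card_fin, nsmul_eq_mul, div_pow, hsk2] at h6
        calc l ^ 2 * ∑ j, ‖(L x - fun j => (p j).1 + s j • (p j).2) j‖ ^ 2
            < l ^ 2 * (k * ((2 * r) ^ 2 / k)) := mul_lt_mul_of_pos_left h6 (by positivity)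
          _ = (2 * (l * r)) ^ 2 := by field_simp
      exact lt_of_pow_lt_pow_left₀ 2 (by positivity) h2
  obtain ⟨c, hc0, hct, hc⟩ := exists_const (volume : Measure (E (k * n)))
    (Measure.pi fun _ : Fin k => (volume : Measure (E n))) L
  have e1 : volume (L ⁻¹' (univ.pi fun _ => U (4 / 3 * h) (2 * r / √k) S)) =
      c * volume (U (4 / 3 * h) (2 * r / √k) S) ^ k := by
    rw [hc _ (isOpen_set_pi finite_univ fun _ _ => isOpen_U _ _ _), Measure.pi_pi]
    simp
  have e2 : volume (L ⁻¹' (univ.pi fun _ => U h r S)) = c * volume (U h r S) ^ k := by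
    rw [hc _ (isOpen_set_pi finite_univ fun _ _ => isOpen_U _ _ _), Measure.pi_pi]
    simp
  have h3 : c * volume (U (4 / 3 * h) (2 * r / √k) S) ^ k ≤
      c * (R * volume (U h r S) ^ k) := by
    calc c * volume (U (4 / 3 * h) (2 * r / √k) S) ^ k
        = volume (L ⁻¹' (univ.pi fun _ => U (4 / 3 * h) (2 * r / √k) S)) := e1.symm
      _ ≤ volume (U 1 (2 * (l * r)) S') := measure_mono hsub2
      _ ≤ R * volume (U (1 / 2) (l * r) S') := hD S' hunit
      _ ≤ R * volume (L ⁻¹' (univ.pi fun _ => U h r S)) := by gcongr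
      _ = c * (R * volume (U h r S) ^ k) := by rw [e2]; ring
  exact (ENNReal.mul_le_mul_iff_right hc0 hct).1 h3

end Pool.Agent.helper88.Tube
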